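import Pool.Agent.H92.K.MainV

set_option autoImplicit false

/-! All admissible systems: all `M`, and all `x` larger than a power of `M`. -/

open Finset Filter Topology

namespace Pool.Agent.H92.K

open Pool.Agent.H262R2.UM Pool.Agent.H262R2.UP Pool.Agent.H92.F

/-- the data of a system: the forms are distinct and their leading coefficients are at most `M` -/
def Sys {k : ℕ} (a b : Fin k → ℕ) (M : ℕ) : Prop :=
  Adm a b ∧ (∀ j, 0 < a j ∧ b j ≤ a j) ∧ (∀ j, 1 ≤ b j) ∧ Function.Injective (fun j => (a j, b j)) ∧ ∀ j, a j ≤ M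

theorem pow_ineq {x T2 m : ℝ} (hx0 : 0 < x) (h1 : T2 ^ 2 ≤ x) (hT : 0 ≤ T2) (hm : 0 ≤ m) (h2 : x ≤ T2 * m) : x ≤ m ^ 2 := by
  have h3 : x * x ≤ (T2 * m) * (T2 * m) := mul_le_mul h2 h2 hx0.le (by positivity)
  have h4 : (T2 * m) * (T2 * m) ≤ x * m ^ 2 := by
    calc (T2 * m) * (T2 * m) = T2 ^ 2 * m ^ 2 := by ring
      _ ≤ x * m ^ 2 := mul_le_mul_of_nonneg_right h1 (by positivity)
  exact le_of_mul_le_mul_left (h3.trans h4) hx0

theorem EF_nonneg {f : ℕ} [NeZero f] (ψ : DirichletCharacter ℂ f) (N : ℕ) : 0 ≤ EF ψ N := by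
  unfold EF
  apply mul_nonneg (norm_nonneg _)
  apply prod_nonneg
  intro p hp
  have hp2 : (2 : ℝ) ≤ p := by exact_mod_cast (mem_Pz.1 hp).2.two_le
  have h1 : (ψ (p : ZMod f)).re ≤ 1 := (Complex.re_le_norm _).trans (ψ.norm_le_one _)
  rw [sub_nonneg, div_le_one (by linarith)]
  linarith

theorem finV (k : ℕ) (ε : ℝ) (hε : 0 < ε) : ∃ A R : ℕ, ∃ c κ : ℝ, 0 < c ∧ 0 < κ ∧ ∀ B : ℕ, ∃ γ : ℕ, ∀ M : ℕ, 2 ≤ M →
    ∃ (f : ℕ) (_ : NeZero f) (ψ : DirichletCharacter ℂ f), (Real.log M) ^ B < f ∧ ψ ^ 2 = 1 ∧ ψ ≠ 1 ∧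
    ∀ a b : Fin k → ℕ, Sys a b M → ∀ i,
      (∀ x : ℕ, γ * M ^ A ≤ x → (x : ℝ) ^ κ ≤ cnt a b i R x) ∧
      ∃ N : ℕ, M ≤ N ∧ N ≤ γ * M ^ A ∧ (N : ℝ) ^ (1 - ε) ≤ cnt a b i R N ∧
      c / (Real.log N) ^ k ≤ dens a b N ∧
      (¬ (f ∣ a i ∧ ψ (b i : ZMod f) = 1) → c * N * dens a b N ≤ cnt a b i R N) ∧
      (f ∣ a i → ψ (b i : ZMod f) = 1 → c * N * dens a b N * EF ψ N ≤ cnt a b i R N) := by
  obtain ⟨ε', hε'⟩ : ∃ ε' : ℝ, ε' = min ε (1 / 2) := ⟨_, rfl⟩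
  have hε0 : 0 < ε' := by rw [hε']; exact lt_min hε (by norm_num)
  have hεa : ε' ≤ ε := by rw [hε']; exact min_le_left _ _
  have hεb : ε' ≤ 1 / 2 := by rw [hε']; exact min_le_right _ _
  obtain ⟨A0, R, c0, hc0, h⟩ := mainV k ε' hε0
  obtain ⟨cd, hcd, hdens⟩ := dens_low k
  obtain ⟨A, hA⟩ : ∃ A : ℕ, A = A0 + 1 := ⟨_, rfl⟩
  have hA1 : 1 ≤ A := by omega
  have hAr : (1 : ℝ) ≤ A := by exact_mod_cast hA1
  refine ⟨A, R, min c0 cd, 1 / (4 * A), lt_min hc0 hcd, by positivity, fun B => ?_⟩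
  obtain ⟨M0, hM0⟩ := h B
  obtain ⟨K0, hK0⟩ : ∃ K0 : ℕ, K0 = M0 + 3 := ⟨_, rfl⟩
  obtain ⟨T, hT⟩ : ∃ T : ℕ, T = 8 * K0 ^ A := ⟨_, rfl⟩
  have hT8 : 8 ≤ T := by
    rw [hT]
    have : 1 ≤ K0 ^ A := Nat.one_le_pow _ _ (by omega)
    omega
  have hstep : ∀ m : ℕ, 1 ≤ m → 8 * (K0 * m) ^ A0 ≤ T * m ^ A := by
    intro m hm
    rw [hT, mul_assoc, ← mul_pow]
    apply Nat.mul_le_mul_left
    exact Nat.pow_le_pow_right (Nat.mul_pos (by omega) hm) (by omega)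
  refine ⟨(T * 2 ^ A) ^ 2 + T, fun M hM => ?_⟩
  have hK0M : ∀ m : ℕ, 1 ≤ m → M0 ≤ K0 * m := by
    intro m hm
    calc M0 ≤ K0 * 1 := by omega
      _ ≤ K0 * m := Nat.mul_le_mul_left _ hm
  have hmK : ∀ m : ℕ, m ≤ K0 * m := fun m => Nat.le_mul_of_pos_left m (by omega)
  obtain ⟨f, hfne, ψ, hf, hψ2, hψ1, hsys⟩ := hM0 (K0 * M) (hK0M M (by omega))
  have hMr : (2 : ℝ) ≤ M := by exact_mod_cast hM
  refine ⟨f, hfne, ψ, ?_, hψ2, hψ1, ?_⟩
  · refine lt_of_le_of_lt ?_ hf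
    apply pow_le_pow_left₀ (Real.log_nonneg (by linarith))
    apply Real.log_le_log (by linarith)
    exact_mod_cast hmK M
  intro a b ⟨hadm, hab, hb1, hinj, haM⟩ i
  constructor
  · intro x hx
    have hPM : T * M ^ A ≤ x := by
      refine le_trans ?_ hx
      exact Nat.mul_le_mul_right _ (Nat.le_add_left _ _)
    have hxM : M ≤ x := by
      calc M ≤ M ^ A := Nat.le_self_pow (by omega) M
        _ ≤ T * M ^ A := Nat.le_mul_of_pos_left _ (by omega)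
        _ ≤ x := hPM
    obtain ⟨m, hm⟩ : ∃ m : ℕ, m = Nat.findGreatest (fun m => T * m ^ A ≤ x) x := ⟨_, rfl⟩
    have hPm : T * m ^ A ≤ x := by
      rw [hm]
      exact Nat.findGreatest_spec (P := fun m => T * m ^ A ≤ x) hxM hPM
    have hMm : M ≤ m := by
      rw [hm]
      exact Nat.le_findGreatest hxM hPM
    have hm2 : 2 ≤ m := by omega
    have hmx : m + 1 ≤ x := by
      have h1 : m ≤ m ^ A := Nat.le_self_pow (by omega) m
      have h2 : 8 * m ^ A ≤ T * m ^ A := Nat.mul_le_mul_right _ hT8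
      omega
    have hPm1 : ¬ T * (m + 1) ^ A ≤ x := by
      have h1 : Nat.findGreatest (fun m => T * m ^ A ≤ x) x < m + 1 := by omega
      exact Nat.findGreatest_is_greatest (P := fun m => T * m ^ A ≤ x) h1 hmx
    obtain ⟨_, _, _, _, _, _, hsys'⟩ := hM0 (K0 * m) (hK0M m (by omega))
    obtain ⟨N, g1, g2, g3, _⟩ := hsys' a b hadm hab hb1 hinj (fun j => (haM j).trans (hMm.trans (hmK m))) i
    have hNx : N ≤ x := g2.trans ((hstep m (by omega)).trans hPm)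
    have hmN : m ≤ N := (hmK m).trans g1
    have hmr : (2 : ℝ) ≤ m := by exact_mod_cast hm2
    have hNr : (2 : ℝ) ≤ N := by
      have : 2 ≤ N := by omega
      exact_mod_cast this
    have hxr : (0 : ℝ) < x := by
      have : 0 < x := by omega
      exact_mod_cast this
    have hx2 : (x : ℝ) ≤ ((m : ℝ) ^ A) ^ 2 := by
      apply pow_ineq (T2 := ((T * 2 ^ A : ℕ) : ℝ)) hxr
      · have h1 : (T * 2 ^ A) ^ 2 ≤ x := by
          refine le_trans ?_ hx
          calc (T * 2 ^ A) ^ 2 ≤ (T * 2 ^ A) ^ 2 + T := by omega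
            _ ≤ ((T * 2 ^ A) ^ 2 + T) * M ^ A := Nat.le_mul_of_pos_right _ (by positivity)
        exact_mod_cast h1
      · positivity
      · positivity
      · have h1 : x ≤ T * 2 ^ A * m ^ A := by
          have h2 : T * (m + 1) ^ A ≤ T * (2 * m) ^ A := Nat.mul_le_mul_left _ (Nat.pow_le_pow_left (by omega) A)
          have h3 : T * (2 * m) ^ A = T * 2 ^ A * m ^ A := by rw [mul_pow]; ring
          omega
        exact_mod_cast h1
    calc (x : ℝ) ^ (1 / (4 * (A : ℝ))) ≤ (((m : ℝ) ^ A) ^ 2) ^ (1 / (4 * (A : ℝ))) :=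
          Real.rpow_le_rpow hxr.le hx2 (by positivity)
      _ = (m : ℝ) ^ (1 / 2 : ℝ) := by
          rw [← pow_mul, ← Real.rpow_natCast, ← Real.rpow_mul (by linarith)]
          congr 1
          push_cast
          field_simp
          norm_num
      _ ≤ (N : ℝ) ^ (1 / 2 : ℝ) := Real.rpow_le_rpow (by linarith) (by exact_mod_cast hmN) (by norm_num)
      _ ≤ (N : ℝ) ^ (1 - ε') := Real.rpow_le_rpow_of_exponent_le (by linarith) (by linarith)
      _ ≤ cnt a b i R N := g3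
      _ ≤ cnt a b i R x := by exact_mod_cast cnt_mono a b i le_rfl hNx
  · obtain ⟨N, g1, g2, g3, g4, g5⟩ := hsys a b hadm hab hb1 hinj (fun j => (haM j).trans (hmK M)) i
    have hMN : M ≤ N := (hmK M).trans g1
    have hN3 : 3 ≤ N := by
      have : K0 * 1 ≤ K0 * M := Nat.mul_le_mul_left _ (by omega)
      omega
    have hNr : (3 : ℝ) ≤ N := by exact_mod_cast hN3
    have hlogN : 0 < Real.log N := Real.log_pos (by linarith)
    have hd := hdens N hN3 a b hadm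
    have hd0 : 0 ≤ dens a b N := le_trans (by positivity) hd
    have hEF0 : 0 ≤ EF ψ N := EF_nonneg ψ N
    refine ⟨N, hMN, ?_, ?_, ?_, fun hne => le_trans ?_ (g4 hne), fun h6 h7 => le_trans ?_ (g5 h6 h7)⟩
    · refine (g2.trans (hstep M (by omega))).trans ?_
      exact Nat.mul_le_mul_right _ (Nat.le_add_left _ _)
    · refine le_trans ?_ g3
      exact Real.rpow_le_rpow_of_exponent_le (by linarith) (by linarith)
    · refine le_trans ?_ hd
      gcongr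
      exact min_le_right _ _
    · gcongr
      exact min_le_left _ _
    · gcongr
      exact min_le_left _ _

end Pool.Agent.H92.K
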