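import Pool.Agent.H92.G.PlusA

set_option autoImplicit false

/-! The local densities of the weights `1 * χ`, in closed form. -/

open Finset Filter Topology

namespace Pool.Agent.H92.K

open Pool.Agent.H262R2.UM Pool.Agent.H262R2.UP Pool.Agent.H92.G

theorem gg_eq (χ : ℕ → ℝ) {a b p : ℕ} {Rt : ℕ → Finset ℕ} (hp : p.Prime) (hRt : ∀ c ∈ Rt p, c < p) (hpa : ¬ p ∣ a)
    (hroot : ∀ c < p, p ∣ a * c + b → c ∈ Rt p) :
    1 - gg χ a b Rt p = (1 - ((Rt p).card : ℝ) / p) * (1 - χ p / p) := by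
  classical
  have hp0 : (0 : ℝ) < p := by exact_mod_cast hp.pos
  have hcop : a.Coprime p := by
    rw [Nat.coprime_comm, Nat.Prime.coprime_iff_not_dvd hp]
    exact hpa
  obtain ⟨n, hn⟩ := exists_root (b := b) hp.pos hcop
  obtain ⟨c0, hc0⟩ : ∃ c0 : ℕ, c0 = n % p := ⟨_, rfl⟩
  have hc0p : c0 < p := by rw [hc0]; exact Nat.mod_lt _ hp.pos
  have hc0d : p ∣ a * c0 + b := by
    have h1 : a * (n % p) + b ≡ a * n + b [MOD p] := ((Nat.mod_modEq n p).mul_left a).add_right b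
    rw [hc0]
    exact (h1.dvd_iff dvd_rfl).2 hn
  have huniq : ∀ c < p, p ∣ a * c + b → c = c0 := by
    intro c hc hd
    have h1 : a * c + b ≡ a * c0 + b [MOD p] :=
      (Nat.modEq_zero_iff_dvd.2 hd).trans (Nat.modEq_zero_iff_dvd.2 hc0d).symm
    have h2 : a * c ≡ a * c0 [MOD p] := Nat.ModEq.add_right_cancel' b h1
    have h3 : c ≡ c0 [MOD p] := Nat.ModEq.cancel_left_of_coprime (by rw [Nat.gcd_comm]; exact hcop) h2
    unfold Nat.ModEq at h3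
    rwa [Nat.mod_eq_of_lt hc, Nat.mod_eq_of_lt hc0p] at h3
  have hmem : c0 ∈ Rt p := hroot c0 hc0p hc0d
  have h1 : ∀ c ∈ Rt p, ep χ a b p c / p = (1 - χ p / p) / p + (if c = c0 then χ p / p else 0) := by
    intro c hc
    unfold ep cc
    rw [if_neg hpa]
    by_cases h2 : c = c0
    · rw [if_pos h2, if_pos (by rw [h2]; exact hc0d)]
      field_simp
      ring
    · rw [if_neg h2, if_neg (fun h3 => h2 (huniq c (hRt c hc) h3))]
      ring
  unfold gg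
  rw [sum_congr rfl h1, sum_add_distrib, sum_const, nsmul_eq_mul, sum_ite_eq' (Rt p) c0, if_pos hmem]
  ring

theorem gg_dvd (χ : ℕ → ℝ) {a b p : ℕ} {Rt : ℕ → Finset ℕ} (hpa : p ∣ a) :
    1 - gg χ a b Rt p = 1 - ((Rt p).card : ℝ) / p := by
  unfold gg
  congr 1
  have h1 : ∀ c ∈ Rt p, ep χ a b p c / p = 1 / (p : ℝ) := by
    intro c _
    unfold ep
    rw [if_pos hpa]
  rw [sum_congr rfl h1, sum_const, nsmul_eq_mul, mul_one_div]

theorem V_eq (χ : ℕ → ℝ) {a b : ℕ} (ha : 0 < a) {Rt : ℕ → Finset ℕ} (P : Finset ℕ)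
    (hP : ∀ p ∈ P, p.Prime ∧ (∀ c ∈ Rt p, c < p) ∧ ∀ c < p, p ∣ a * c + b → c ∈ Rt p) :
    ∏ p ∈ P, (1 - gg χ a b Rt p) =
      (∏ p ∈ P, (1 - ((Rt p).card : ℝ) / p)) * ∏ p ∈ P \ a.primeFactors, (1 - χ p / p) := by
  classical
  have h2 : ∏ p ∈ P \ a.primeFactors, (1 - χ p / p) = ∏ p ∈ P, (if p ∣ a then 1 else 1 - χ p / (p : ℝ)) := by
    rw [← filter_notMem_eq_sdiff, prod_filter]
    apply prod_congr rfl
    intro p hp
    by_cases h : p ∣ a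
    · rw [if_pos h, if_neg (not_not.2 (Nat.mem_primeFactors.2 ⟨(hP p hp).1, h, ha.ne'⟩))]
    · rw [if_neg h, if_pos (fun h3 => h (Nat.dvd_of_mem_primeFactors h3))]
  rw [h2, ← prod_mul_distrib]
  apply prod_congr rfl
  intro p hp
  obtain ⟨h3, h4, h5⟩ := hP p hp
  by_cases h : p ∣ a
  · rw [if_pos h, mul_one, gg_dvd χ h]
  · rw [if_neg h, gg_eq χ h3 h4 h h5]

theorem LV_eq (χ : ℕ → ℝ) {a b : ℕ} (ha : 0 < a) {Rt : ℕ → Finset ℕ} (ZW P Q : Finset ℕ) (hd : Disjoint ZW P)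
    (hQ : ZW ∪ P = Q) (haQ : a.primeFactors ⊆ Q)
    (hP : ∀ p ∈ P, p.Prime ∧ (∀ c ∈ Rt p, c < p) ∧ ∀ c < p, p ∣ a * c + b → c ∈ Rt p) :
    (∏ p ∈ ZW ∪ a.primeFactors, (1 - χ p / p)) * ∏ p ∈ P, (1 - gg χ a b Rt p) =
      (∏ p ∈ P, (1 - ((Rt p).card : ℝ) / p)) * ∏ p ∈ Q, (1 - χ p / p) := by
  classical
  rw [V_eq χ ha P hP, mul_left_comm]
  congr 1
  rw [← prod_union]
  · apply prod_congr _ (fun _ _ => rfl)
    ext p
    simp only [mem_union, Finset.mem_sdiff]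
    rw [← hQ]
    rw [← hQ] at haQ
    constructor
    · rintro ((h | h) | ⟨h, _⟩)
      · exact mem_union_left _ h
      · exact haQ h
      · exact mem_union_right _ h
    · intro h
      rcases mem_union.1 h with h1 | h1
      · exact Or.inl (Or.inl h1)
      · by_cases h2 : p ∈ a.primeFactors
        · exact Or.inl (Or.inr h2)
        · exact Or.inr ⟨h1, h2⟩
  · rw [Finset.disjoint_left]
    intro p hp hp'
    rw [Finset.mem_sdiff] at hp'
    rcases mem_union.1 hp with h1 | h1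
    · exact (Finset.disjoint_left.1 hd h1) hp'.1
    · exact hp'.2 h1

/-- the Euler factors between `y` and `y ^ u` -/
theorem tail_le : ∃ C : ℝ, 0 < C ∧ ∀ (χ : ℕ → ℝ), (∀ n, |χ n| ≤ 1) → ∀ y u N : ℕ, 3 ≤ y → 1 ≤ u → N = y ^ u →
    0 ≤ ∏ p ∈ Pz y, (1 - χ p / p) ∧
    ∏ p ∈ Pz N, (1 - χ p / p) ≤ C * u * ∏ p ∈ Pz y, (1 - χ p / p) := by
  classical
  obtain ⟨C2, hC2⟩ := Pool.Agent.Erdos456.Mert.mertens_inv
  refine ⟨Real.exp (2 * C2), Real.exp_pos _, ?_⟩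
  intro χ hχ y u N hy hu hN
  have hyr : (3 : ℝ) ≤ y := by exact_mod_cast hy
  have hyN : y ≤ N := by rw [hN]; exact Nat.le_self_pow (by omega) y
  have hfac : ∀ p : ℕ, p.Prime → 0 ≤ 1 - χ p / p ∧ 1 - χ p / p ≤ Real.exp (1 / p) := by
    intro p hp
    have hp2 : (2 : ℝ) ≤ p := by exact_mod_cast hp.two_le
    have h1 := abs_le.1 (hχ p)
    have h2 : χ p / p ≤ 1 / p := div_le_div_of_nonneg_right h1.2 (by linarith)
    have h3 : (-1) / (p : ℝ) ≤ χ p / p := div_le_div_of_nonneg_right h1.1 (by linarith)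
    have h4 : 1 / (p : ℝ) ≤ 1 := by rw [div_le_one (by linarith)]; linarith
    have h5 := Real.add_one_le_exp (1 / (p : ℝ))
    have h6 : (-1) / (p : ℝ) = - (1 / p) := by ring
    constructor <;> linarith
  have hsub : Pz y ⊆ Pz N := by
    intro p hp
    rw [mem_Pz] at hp ⊢
    exact ⟨hp.1.trans hyN, hp.2⟩
  have h0 : 0 ≤ ∏ p ∈ Pz y, (1 - χ p / p) := prod_nonneg fun p hp => (hfac p (mem_Pz.1 hp).2).1
  refine ⟨h0, ?_⟩
  rw [← prod_sdiff hsub]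
  apply mul_le_mul_of_nonneg_right _ h0
  have h1 : ∏ p ∈ Pz N \ Pz y, (1 - χ p / p) ≤ Real.exp (∑ p ∈ Pz N \ Pz y, 1 / (p : ℝ)) := by
    rw [Real.exp_sum]
    apply Finset.prod_le_prod
    · intro p hp
      exact (hfac p (mem_Pz.1 (Finset.mem_sdiff.1 hp).1).2).1
    · intro p hp
      exact (hfac p (mem_Pz.1 (Finset.mem_sdiff.1 hp).1).2).2
  refine h1.trans ?_
  have hPz : ∀ z : ℕ, ∑ p ∈ Pz z, (1 : ℝ) / p = ∑ p ∈ (Icc 1 z).filter Nat.Prime, (1 : ℝ) / p := by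
    intro z
    apply sum_congr _ (fun _ _ => rfl)
    ext p
    rw [mem_Pz, mem_filter, mem_Icc]
    constructor
    · rintro ⟨h1, h2⟩
      exact ⟨⟨h2.pos, h1⟩, h2⟩
    · rintro ⟨⟨_, h1⟩, h2⟩
      exact ⟨h1, h2⟩
  have h2 : ∑ p ∈ Pz N \ Pz y, 1 / (p : ℝ) = ∑ p ∈ Pz N, 1 / (p : ℝ) - ∑ p ∈ Pz y, 1 / (p : ℝ) := by
    rw [← sum_sdiff hsub]; ring
  have h3 := (abs_le.1 (hC2 N (by omega))).2
  have h4 := (abs_le.1 (hC2 y hy)).1
  have hlogy : 0 < Real.log y := Real.log_pos (by linarith)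
  have hur : (1 : ℝ) ≤ u := by exact_mod_cast hu
  have hlogN : Real.log N = u * Real.log y := by
    rw [hN]; push_cast; rw [Real.log_pow]
  have h5 : Real.log (Real.log N) = Real.log u + Real.log (Real.log y) := by
    rw [hlogN, Real.log_mul (by positivity) (by positivity)]
  rw [h2, hPz, hPz]
  calc Real.exp (∑ p ∈ (Icc 1 N).filter Nat.Prime, (1 : ℝ) / p - ∑ p ∈ (Icc 1 y).filter Nat.Prime, (1 : ℝ) / p) ≤
      Real.exp (2 * C2 + Real.log u) := by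
        apply Real.exp_le_exp.2
        linarith
    _ = Real.exp (2 * C2) * u := by
        rw [Real.exp_add, Real.exp_log (by positivity)]

end Pool.Agent.H92.K
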