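import Mathlib

set_option autoImplicit false

/-! Growth and a real character. -/

open Finset Filter Topology

namespace Pool.Agent.H92.K

theorem growth (k : ℕ) (C ε : ℝ) (hC : 0 < C) (hε : 0 < ε) : ∃ M0 : ℕ, ∀ N : ℕ, M0 ≤ N →
    (N : ℝ) ^ (1 - ε) ≤ C * N * (1 / (Real.log N) ^ k) := by
  have h1 := (isLittleO_log_rpow_rpow_atTop (k : ℝ) hε).bound hC
  have h2 := (tendsto_natCast_atTop_atTop (R := ℝ)).eventually h1
  obtain ⟨M0, hM0⟩ := eventually_atTop.1 h2
  refine ⟨M0 + 3, fun N hN => ?_⟩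
  have h3 := hM0 N (by omega)
  have hN3 : (3 : ℝ) ≤ N := by
    have : 3 ≤ N := by omega
    exact_mod_cast this
  have hN0 : (0 : ℝ) < N := by linarith
  have hlog : 0 < Real.log N := Real.log_pos (by linarith)
  rw [Real.rpow_natCast, Real.norm_of_nonneg (by positivity), Real.norm_of_nonneg (by positivity)] at h3
  rw [mul_one_div, le_div_iff₀ (by positivity), Real.rpow_sub hN0, Real.rpow_one]
  calc (N : ℝ) / (N : ℝ) ^ ε * (Real.log N) ^ k ≤ (N : ℝ) / (N : ℝ) ^ ε * (C * (N : ℝ) ^ ε) :=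
        mul_le_mul_of_nonneg_left h3 (by positivity)
    _ = C * N := by
        have : (N : ℝ) ^ ε ≠ 0 := by positivity
        field_simp

/-- a real character which is not principal, for every modulus divisible by `4` -/
theorem real_char (L : ℕ) (hL : 0 < L) : ∃ ψ : DirichletCharacter ℂ (4 * L), ψ ^ 2 = 1 ∧ ψ ≠ 1 := by
  have : NeZero (4 * L) := ⟨by omega⟩
  obtain ⟨χ, hχ⟩ : ∃ χ : DirichletCharacter ℂ 4, χ = ZMod.χ₄.ringHomComp (Int.castRingHom ℂ) := ⟨_, rfl⟩
  have h1 : χ ≠ 1 := by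
    intro h
    have h2 : χ (3 : ZMod 4) = 1 := by
      rw [h]
      exact MulChar.one_apply (by decide)
    rw [hχ, MulChar.ringHomComp_apply] at h2
    have h3 : ZMod.χ₄ (3 : ZMod 4) = -1 := by decide
    rw [h3] at h2
    norm_num at h2
  have h2 : χ ^ 2 = 1 := by
    rw [hχ]
    exact (ZMod.isQuadratic_χ₄.comp (Int.castRingHom ℂ)).sq_eq_one
  refine ⟨DirichletCharacter.changeLevel (Dvd.intro L rfl) χ, ?_, ?_⟩
  · rw [← map_pow, h2, map_one]
  · intro h
    apply h1
    apply DirichletCharacter.changeLevel_injective (Dvd.intro L rfl : 4 ∣ 4 * L)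
    rw [h, map_one]

end Pool.Agent.H92.K
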