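import Pool.Agent.H92.G.PlusFin
import Pool.Agent.H92.K.RemQ
import Pool.Agent.H92.K.Gg
import Pool.Agent.H92.F.Final

set_option autoImplicit false

/-! The exceptional case with `χ (b i) = 1`: the number of the prime values. -/

open Finset Filter Topology

namespace Pool.Agent.H92.G

open Pool.Agent.H262R2.UM Pool.Agent.H262R2.UP

/-- the final inequality -/
theorem fin_ineq_count {AV E0 SE q Sg Sr Np : ℝ} (hAV : 0 ≤ AV) (h1 : 1 / 2 * AV - E0 ≤ Sg)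
    (h2 : Sg ≤ 2 * Np + (3 * AV * Sr + 2 * SE + q)) (hr : Sr ≤ 1 / 8) : AV ≤ 8 * (E0 + 2 * SE + q + 2 * Np) := by
  have h3 : AV * Sr ≤ AV * (1 / 8) := mul_le_mul_of_nonneg_left hr hAV
  linarith

theorem lam_prime_le {f : ℕ} {χ : ℕ → ℝ} (h : Chr f χ) {m : ℕ} (hm : m.Prime) : lam χ m ≤ 2 := by
  refine (lam_le_card h m).trans ?_
  rw [hm.divisors, Finset.card_pair hm.one_lt.ne]
  norm_num

set_option maxHeartbeats 4000000 in
theorem plus_count (k E : ℕ) : ∃ (u s0 : ℕ) (c0 : ℝ), 1 ≤ u ∧ E ≤ u ∧ 0 < c0 ∧ ∀ s : ℕ, s0 ≤ s → ∀ (f : ℕ) (χ : ℕ → ℝ) (L : ℝ), Chr f χ → Tends χ L →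
    1 / (s : ℝ) ≤ L → ∀ a b : Fin k → ℕ, Adm a b → (∀ j, 0 < a j ∧ b j ≤ a j) → (∀ j, 1 ≤ b j) → (∀ j, a j ≤ s) →
    ∀ i, f ∣ a i → χ (b i) = 1 →
    ∑ r ∈ (Ioc (s ^ 16) (s ^ (16 * (u + 1)))).filter (fun r => r.Prime ∧ χ r = 1), 1 / (r : ℝ) ≤ 1 / 8 →
    ∃ GP : Finset ℕ, (s : ℝ) ^ (16 * u - 5) ≤ (GP.card : ℝ) ∧
      c0 * ((s ^ (16 * u) : ℕ) : ℝ) * Pool.Agent.H92.F.dens a b (s ^ (16 * u)) *
        (L * ∏ p ∈ Pz (s ^ (16 * u)), (1 - χ p / p)) ≤ (GP.card : ℝ) ∧ ∀ n ∈ GP, 1 ≤ n ∧ n ≤ s ^ (16 * u) ∧ (a i * n + b i).Prime ∧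
      ∀ j, ∀ p : ℕ, p.Prime → p ∣ a j * n + b j → s ^ 16 < p := by
  classical
  obtain ⟨C, hC1, hF⟩ := flc
  obtain ⟨bb, hbb⟩ : ∃ bb : ℕ, bb = C * (2 * k + 1) := ⟨_, rfl⟩
  have hbb1 : 1 ≤ bb := by rw [hbb]; exact Nat.mul_pos hC1 (by omega)
  obtain ⟨z0, hz0⟩ : ∃ z0 : ℕ, z0 = C * (2 * k + 1) + 8 * k + 8 := ⟨_, rfl⟩
  obtain ⟨ZW, hZWd⟩ : ∃ ZW : Finset ℕ, ZW = Pz z0 := ⟨_, rfl⟩
  have hZWp : ∀ p ∈ ZW, p.Prime := fun p hp => by rw [hZWd] at hp; exact (mem_Pz.1 hp).2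
  obtain ⟨W, hW⟩ : ∃ W : ℕ, W = ∏ p ∈ ZW, p := ⟨_, rfl⟩
  have hW0 : 0 < W := by rw [hW]; exact prod_pos fun p hp => (hZWp p hp).pos
  obtain ⟨c6, hc6, hVl⟩ := V_low k
  obtain ⟨e, he⟩ : ∃ e : ℕ, e = 32 * (C * bb) := ⟨_, rfl⟩
  obtain ⟨u, hu⟩ : ∃ u : ℕ, u = e + 3 + E := ⟨_, rfl⟩
  obtain ⟨s1, hs1⟩ := eventually_atTop.1 (ev_s (4 * W * 2 ^ ZW.card / c6) (4 * k + 2) (17 + 2 ^ u + z0))
  obtain ⟨CT, hCT, hTl⟩ := Pool.Agent.H92.K.tail_le
  have hWr0 : (0 : ℝ) < W := by exact_mod_cast hW0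
  have hur0 : (0 : ℝ) < u := by
    have : 0 < u := by omega
    exact_mod_cast this
  refine ⟨u, s1, 1 / (16 * W * CT * u), by omega, by omega, by positivity, ?_⟩
  intro s hs f χ L h hL hLs a b hadm hab hb1 has i hfa hχ hsum
  obtain ⟨ev1, ev2, ev3⟩ := hs1 s hs
  have hcop : ∀ j, (b j).Coprime (a j) := fun j => adm_coprime hadm j
  have h2u : 0 < 2 ^ u := by positivity
  have hs17 : 17 ≤ s := by omega
  have hsr : (17 : ℝ) ≤ s := by exact_mod_cast hs17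
  have hs0 : (0 : ℝ) < s := by linarith
  have hs1' : (1 : ℝ) ≤ s := by linarith
  obtain ⟨y, hy⟩ : ∃ y : ℕ, y = s ^ 16 := ⟨_, rfl⟩
  have hsy : s ≤ y := by rw [hy]; exact Nat.le_self_pow (by norm_num) s
  have hyr : (y : ℝ) = (s : ℝ) ^ 16 := by rw [hy]; push_cast; rfl
  obtain ⟨P, hPd⟩ : ∃ P : Finset ℕ, P = Pz y \ Pz z0 := ⟨_, rfl⟩
  have hPm : ∀ p ∈ P, p.Prime ∧ z0 < p ∧ p ≤ y := by
    intro p hp
    rw [hPd, Finset.mem_sdiff, mem_Pz, mem_Pz] at hp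
    refine ⟨hp.1.2, ?_, hp.1.1⟩
    by_contra hcon
    exact hp.2 ⟨not_lt.1 hcon, hp.1.2⟩
  obtain ⟨J, hJ1, hJ2⟩ := J_ex y (by omega)
  have hJs : (J : ℝ) + 2 ≤ s := by
    refine (J_le (s := s) (by omega) ?_).trans ev2
    calc 2 ^ 2 ^ J ≤ y ^ 2 := hJ2
      _ = s ^ 32 := by rw [hy, ← pow_mul]
  have hlev : (((2 ^ 2 ^ J) ^ (C * bb) : ℕ) : ℝ) ≤ (s : ℝ) ^ e := by
    have h1 : (2 ^ 2 ^ J) ^ (C * bb) ≤ s ^ e := by
      calc (2 ^ 2 ^ J) ^ (C * bb) ≤ (y ^ 2) ^ (C * bb) := Nat.pow_le_pow_left hJ2 _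
        _ = s ^ e := by
            rw [hy, he, ← pow_mul, ← pow_mul]
            congr 1
            ring
    exact_mod_cast h1
  have hdisj : Disjoint ZW P := by
    rw [hZWd, hPd]
    exact disjoint_sdiff
  obtain ⟨ν, hν0⟩ := crt_class hadm ZW hZWp
  have hν : ∀ j, ∀ p ∈ ZW, ¬ p ∣ a j * ν + b j := by
    intro j p hp hd
    have h1 := hν0 j
    have h2 := Nat.dvd_gcd hd (dvd_prod_of_mem (fun q => q) hp)
    rw [h1] at h2
    exact (hZWp p hp).one_lt.ne' (Nat.dvd_one.1 h2)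
  obtain ⟨N, hN⟩ : ∃ N : ℕ, N = s ^ (16 * u) := ⟨_, rfl⟩
  have hNr : (N : ℝ) = (s : ℝ) ^ (16 * u) := by rw [hN]; push_cast; rfl
  obtain ⟨D, hD⟩ : ∃ D : ℕ, D = Nat.sqrt (a i * N + b i) := ⟨_, rfl⟩
  have hval : ∀ j, a j * N + b j ≤ 2 * s ^ (16 * u + 1) := by
    intro j
    have h1 : a j * N ≤ s * N := Nat.mul_le_mul_right N (has j)
    have h2 : b j ≤ s := (hab j).2.trans (has j)
    have h3 : s * N = s ^ (16 * u + 1) := by rw [hN, pow_succ, mul_comm]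
    have h4 : s ≤ s ^ (16 * u + 1) := Nat.le_self_pow (by omega) s
    omega
  have hval2 : ∀ j, a j * N + b j ≤ s ^ (16 * u + 2) := by
    intro j
    refine (hval j).trans ?_
    calc 2 * s ^ (16 * u + 1) ≤ s * s ^ (16 * u + 1) := Nat.mul_le_mul_right _ (by omega)
      _ = s ^ (16 * u + 2) := by ring
  have hvaly : ∀ j, a j * N + b j < y ^ (u + 1) := by
    intro j
    refine lt_of_le_of_lt (hval2 j) ?_
    rw [hy, ← pow_mul]
    exact Nat.pow_lt_pow_right (by omega) (by omega)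
  have hDs : D ≤ s ^ (8 * u + 1) := by
    rw [hD]
    have h1 : a i * N + b i ≤ s ^ (8 * u + 1) * s ^ (8 * u + 1) := by
      refine (hval2 i).trans (le_of_eq ?_)
      rw [← pow_add]
      congr 1
      ring
    calc Nat.sqrt (a i * N + b i) ≤ Nat.sqrt (s ^ (8 * u + 1) * s ^ (8 * u + 1)) := Nat.sqrt_le_sqrt h1
      _ = _ := Nat.sqrt_eq _
  have hDN : D ≤ N := by
    refine hDs.trans ?_
    rw [hN]
    exact Nat.pow_le_pow_right (by omega) (by omega)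
  have hDr : (D : ℝ) ≤ (s : ℝ) ^ (8 * u + 1) := by exact_mod_cast hDs
  have hgood : ∀ n ∈ GS W ν N P (Rts a b), ∀ j, ∀ p : ℕ, p.Prime → p ∣ a j * n + b j → y < p := by
    intro n hn j p hp hpd
    by_contra hcon
    push Not at hcon
    rw [mem_GS] at hn
    by_cases h1 : p ∈ ZW
    · apply hν j p h1
      have h2 : p ∣ W := by rw [hW]; exact dvd_prod_of_mem _ h1
      have h3 : a j * n + b j ≡ a j * ν + b j [MOD p] := ((hn.2.1.of_dvd h2).mul_left _).add_right _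
      exact (h3.dvd_iff dvd_rfl).1 hpd
    · have h2 : p ∈ P := by
        rw [hPd, Finset.mem_sdiff, mem_Pz]
        refine ⟨⟨hcon, hp⟩, ?_⟩
        rw [← hZWd]
        exact h1
      exact hn.2.2 p h2 (Rts_hit hp.pos j hpd)
  obtain ⟨GP, hGP⟩ : ∃ GP : Finset ℕ, GP = (GS W ν N P (Rts a b)).filter (fun n => (a i * n + b i).Prime) := ⟨_, rfl⟩
  suffices hsuf : (s : ℝ) ^ (16 * u - 5) ≤ (GP.card : ℝ) ∧
      1 / (16 * W * CT * u) * ((s ^ (16 * u) : ℕ) : ℝ) * Pool.Agent.H92.F.dens a b (s ^ (16 * u)) *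
        (L * ∏ p ∈ Pz (s ^ (16 * u)), (1 - χ p / p)) ≤ (GP.card : ℝ) from ⟨GP, hsuf.1, hsuf.2, fun n hn => by
    rw [hGP, mem_filter] at hn
    rw [← hN, ← hy]
    exact ⟨(mem_GS.1 hn.1).1.1, (mem_GS.1 hn.1).1.2, hn.2, fun j p hp hpd => hgood n hn.1 j p hp hpd⟩⟩
  -- the data of the primes
  have hrd := root_data (a := a i) (b := b i) (W := W) (ν := ν) (y := y) (hab i).1 ((has i).trans hsy) (ZW := ZW)
    (fun p hp => ⟨hZWp p hp, by
      rw [hZWd] at hp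
      have := (mem_Pz.1 hp).1
      omega⟩) hW
  have hrd' : ∀ r : ℕ, ∃ t : ℕ × ℕ × ℕ, r.Prime → y < r → t.1 < r ∧ r * t.2.1 = a i * t.1 + b i ∧
      t.1 + r * t.2.2 ≡ ν [MOD W] := by
    intro r
    by_cases h1 : r.Prime ∧ y < r
    · obtain ⟨x1, x2, x3, h2⟩ := hrd r h1.1 h1.2
      exact ⟨(x1, x2, x3), fun _ _ => h2⟩
    · exact ⟨(0, 0, 0), fun h2 h3 => absurd ⟨h2, h3⟩ h1⟩
  choose tt htt using hrd'
  have hall : ∀ p : ℕ, p.Prime → p ≤ y → p ∈ ZW ∨ p ∈ P := by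
    intro p hp hpy
    by_cases h1 : p ∈ ZW
    · exact Or.inl h1
    · right
      rw [hPd, Finset.mem_sdiff, mem_Pz]
      refine ⟨⟨hpy, hp⟩, ?_⟩
      rw [← hZWd]
      exact h1
  have hrem := rem_plus_count h (hab i).1 hfa (hcop i).symm (hb1 i) (hab i).2 (y := y) (by omega) ((has i).trans hsy)
    (ZW := ZW) (P := P) (fun p hp => ⟨hZWp p hp, by
      rw [hZWd] at hp
      have := (mem_Pz.1 hp).1
      omega⟩) hW hall (Rts a b) (fun p hp n hpd => Rts_hit (hPm p hp).1.pos i hpd) ν N u (hν i) (hvaly i)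
    (fun r => (tt r).1) (fun r => (tt r).2.1) (fun r => (tt r).2.2) htt
  rw [← hD] at hrem
  -- the lower bound
  have hRtk : ∀ p ∈ P, (Rts a b p).card ≤ k ∧ ∀ c ∈ Rts a b p, c < p := by
    intro p hp
    exact ⟨Pool.Agent.H92.F.nu_le_k hcop (hPm p hp).1, fun c hc => mem_range.1 (mem_filter.1 hc).1⟩
  have hPJ : ∀ p ∈ P, p.Prime ∧ z0 < p ∧ p ≤ 2 ^ 2 ^ J := fun p hp =>
    ⟨(hPm p hp).1, (hPm p hp).2.1, (hPm p hp).2.2.trans hJ1⟩
  have hL0 : 0 ≤ L := le_trans (by positivity) hLs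
  have hlow := svp hF h hL hL0 (hab i).1 hfa (hcop i).symm (hab i).2 hχ k bb J z0 ZW P hZWp hPJ hdisj (Rts a b) hRtk
    (by omega) (by omega) hC1 ν N (hν i)
  rw [← hW, ← hD] at hlow
  obtain ⟨V, hV⟩ : ∃ V : ℝ, V = ∏ p ∈ P, (1 - gg χ (a i) (b i) (Rts a b) p) := ⟨_, rfl⟩
  obtain ⟨LP, hLP⟩ : ∃ LP : ℝ, LP = L * ∏ p ∈ ZW ∪ (a i).primeFactors, (1 - χ p / p) := ⟨_, rfl⟩
  obtain ⟨F, hFd⟩ : ∃ F : ℝ, F = ((J : ℝ) + 2) * ((((2 ^ 2 ^ J) ^ (C * bb) : ℕ) : ℝ) * (((2 ^ 2 ^ J) ^ (C * bb) : ℕ) : ℝ) *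
        (17 * (a i : ℝ) ^ 2)) := ⟨_, rfl⟩
  have hF0 : 0 ≤ F := by rw [hFd]; positivity
  have har : (a i : ℝ) ≤ s := by exact_mod_cast has i
  have hFs : F ≤ (s : ℝ) ^ (2 * e + 4) := by
    rw [hFd]
    calc ((J : ℝ) + 2) * ((((2 ^ 2 ^ J) ^ (C * bb) : ℕ) : ℝ) * (((2 ^ 2 ^ J) ^ (C * bb) : ℕ) : ℝ) * (17 * (a i : ℝ) ^ 2)) ≤
        s * ((s : ℝ) ^ e * (s : ℝ) ^ e * (s * (s : ℝ) ^ 2)) := by gcongr
      _ = _ := by ring
  rw [← hV, ← hLP] at hlow
  have hV0 : c6 / (Real.log y) ^ (4 * k + 2) ≤ V := by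
    rw [hV]
    apply hVl f χ h (a i) (b i) y P (Rts a b) (by omega)
    intro p hp
    exact ⟨(hPm p hp).1, by have := (hPm p hp).2.1; omega, (hPm p hp).2.2, (hRtk p hp).1⟩
  have hlogs : 0 < Real.log s := Real.log_pos (by linarith)
  have hlogy : Real.log y = 16 * Real.log s := by
    rw [hyr, Real.log_pow]; norm_num
  rw [hlogy] at hV0
  have hVpos : 0 < V := lt_of_lt_of_le (by positivity) hV0
  have hZc : 1 / ((2 : ℝ) ^ ZW.card * a i) ≤ ∏ p ∈ ZW ∪ (a i).primeFactors, (1 - χ p / p) :=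
    prod_low h (hab i).1 ZW hZWp
  have hprod0 : 0 ≤ ∏ p ∈ ZW ∪ (a i).primeFactors, (1 - χ p / p) := le_trans (by positivity) hZc
  have hLP0 : 0 ≤ LP := by rw [hLP]; exact mul_nonneg hL0 hprod0
  have hai0 : (0 : ℝ) < a i := by exact_mod_cast (hab i).1
  have hWr : (0 : ℝ) < W := by exact_mod_cast hW0
  have hNpos : (0 : ℝ) < N := by rw [hNr]; positivity
  obtain ⟨AV, hAV⟩ : ∃ AV : ℝ, AV = 2 * ((N : ℝ) / W) * LP * V := ⟨_, rfl⟩
  have hAV0 : 0 ≤ AV := by rw [hAV]; positivity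
  have hhalf : (1 / 2 : ℝ) ^ bb ≤ 1 / 2 := by
    calc (1 / 2 : ℝ) ^ bb ≤ (1 / 2 : ℝ) ^ 1 := pow_le_pow_of_le_one (by norm_num) (by norm_num) hbb1
      _ = 1 / 2 := pow_one _
  have e0 : 1 / 2 * AV - F * ((D : ℝ) + 1) ≤ ∑ n ∈ GS W ν N P (Rts a b), lam χ (a i * n + b i) := by
    have h1 := (abs_le.1 hlow).1
    have h2 : (1 / 2 : ℝ) ^ bb * AV ≤ 1 / 2 * AV := mul_le_mul_of_nonneg_right hhalf hAV0
    have h3 : ((J : ℝ) + 2) * ((((2 ^ 2 ^ J) ^ (C * bb) : ℕ) : ℝ) * (((2 ^ 2 ^ J) ^ (C * bb) : ℕ) : ℝ) *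
        (17 * (a i : ℝ) ^ 2 * ((D : ℝ) + 1))) = F * ((D : ℝ) + 1) := by rw [hFd]; ring
    rw [h3, ← hAV] at h1
    unfold GS
    linarith
  -- the upper bounds
  obtain ⟨X2, hX2⟩ : ∃ X2 : ℝ, X2 = 2 * a i * N := ⟨_, rfl⟩
  have hX20 : 0 ≤ X2 := by rw [hX2]; positivity
  have e1 : ∀ r ∈ (Ioc y D).filter (fun r => r.Prime ∧ χ r = 1),
      2 * ∑ t ∈ GS W (tt r).2.2 (N / r) P (RtR (Rts a b) r (tt r).1), lam χ (a i * t + (tt r).2.1) ≤
      3 * AV * (1 / r) + 2 * (F * (Real.sqrt X2 * (1 / Real.sqrt r) + 1)) := by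
    intro r hr
    rw [mem_filter, mem_Ioc] at hr
    obtain ⟨⟨hyr', hrD⟩, hrp, hχr⟩ := hr
    obtain ⟨d1, d2, d3⟩ := htt r hrp hyr'
    have hr0 : (0 : ℝ) < r := by exact_mod_cast hrp.pos
    have hrP : ∀ p ∈ P, r.Coprime p := by
      intro p hp
      rw [Nat.coprime_primes hrp (hPm p hp).1]
      have := (hPm p hp).2.2
      omega
    have hb' : (tt r).2.1 ≤ a i := by
      have h1 : r * (tt r).2.1 ≤ r * a i := by
        rw [d2]
        have h2 : a i * (tt r).1 ≤ a i * (r - 1) := Nat.mul_le_mul_left _ (by omega)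
        have h3 : a i * (r - 1) + a i = r * a i := by
          have : r - 1 + 1 = r := by omega
          calc a i * (r - 1) + a i = a i * (r - 1 + 1) := by ring
            _ = r * a i := by rw [this, mul_comm]
        have := (hab i).2
        omega
      exact Nat.le_of_mul_le_mul_left h1 hrp.pos
    have hcop' : (a i).Coprime (tt r).2.1 := by
      have h1 : (a i).Coprime (r * (tt r).2.1) := by
        rw [d2]
        have := (hcop i).symm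
        rw [Nat.coprime_iff_gcd_eq_one] at this ⊢
        rw [add_comm, Nat.gcd_add_mul_left_right]
        exact this
      exact Nat.Coprime.coprime_mul_left_right h1
    have hχ' : χ (tt r).2.1 = 1 := by
      have h1 : χ (r * (tt r).2.1) = 1 := by
        rw [d2, ← hχ]
        apply h.per
        have h3 : a i * (tt r).1 ≡ 0 [MOD f] := Nat.modEq_zero_iff_dvd.2 (hfa.mul_right _)
        have := h3.add_right (b i)
        rwa [zero_add] at this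
      rw [h.mul, hχr, one_mul] at h1
      exact h1
    have hν' : ∀ p ∈ ZW, ¬ p ∣ a i * (tt r).2.2 + (tt r).2.1 := by
      intro p hp hd
      apply hν i p hp
      have h1 : p ∣ r * (a i * (tt r).2.2 + (tt r).2.1) := hd.mul_left r
      have h2 : r * (a i * (tt r).2.2 + (tt r).2.1) = a i * ((tt r).1 + r * (tt r).2.2) + b i := by
        have : r * (a i * (tt r).2.2 + (tt r).2.1) = a i * (r * (tt r).2.2) + r * (tt r).2.1 := by ring
        rw [this, d2]; ring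
      rw [h2] at h1
      have h3 : p ∣ W := by rw [hW]; exact dvd_prod_of_mem _ hp
      have h4 : a i * ((tt r).1 + r * (tt r).2.2) + b i ≡ a i * ν + b i [MOD p] :=
        ((d3.of_dvd h3).mul_left _).add_right _
      exact (h4.dvd_iff dvd_rfl).1 h1
    have hup := svp hF h hL hL0 (hab i).1 hfa hcop' hb' hχ' k bb J z0 ZW P hZWp hPJ hdisj (RtR (Rts a b) r (tt r).1)
      (fun p hp => RtR_card (hrP p hp) (hRtk p hp).1) (by omega) (by omega) hC1 (tt r).2.2 (N / r) hν'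
    have hVr : ∏ p ∈ P, (1 - gg χ (a i) (tt r).2.1 (RtR (Rts a b) r (tt r).1) p) = V := by
      rw [hV]
      apply prod_congr rfl
      intro p hp
      rw [gg_tr (hPm p hp).1 (hrP p hp) d2 (hRtk p hp).2]
    rw [← hW, hVr, ← hLP] at hup
    have h1 := (abs_le.1 hup).2
    have h2 : ((N / r : ℕ) : ℝ) ≤ (N : ℝ) / r := Nat.cast_div_le
    have h3 : 2 * (((N / r : ℕ) : ℝ) / W) * LP * V ≤ AV * (1 / r) := by
      rw [hAV]
      calc 2 * (((N / r : ℕ) : ℝ) / W) * LP * V ≤ 2 * (((N : ℝ) / r) / W) * LP * V := by gcongr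
        _ = _ := by ring
    have h30 : 0 ≤ 2 * (((N / r : ℕ) : ℝ) / W) * LP * V := by positivity
    have h4 : (1 / 2 : ℝ) ^ bb * (2 * (((N / r : ℕ) : ℝ) / W) * LP * V) ≤ 1 / 2 * (AV * (1 / r)) := by
      calc _ ≤ 1 / 2 * (2 * (((N / r : ℕ) : ℝ) / W) * LP * V) := mul_le_mul_of_nonneg_right hhalf h30
        _ ≤ _ := mul_le_mul_of_nonneg_left h3 (by norm_num)
    have h5 : (Nat.sqrt (a i * (N / r) + (tt r).2.1) : ℝ) ≤ Real.sqrt X2 * (1 / Real.sqrt r) := by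
      refine Real.nat_sqrt_le_real_sqrt.trans ?_
      rw [mul_one_div, ← Real.sqrt_div hX20]
      apply Real.sqrt_le_sqrt
      push_cast
      have h6 : (a i : ℝ) * ((N / r : ℕ) : ℝ) ≤ a i * (N / r) := mul_le_mul_of_nonneg_left h2 hai0.le
      have h7 : ((tt r).2.1 : ℝ) ≤ a i := by exact_mod_cast hb'
      have h8 : (1 : ℝ) ≤ N / r := by
        rw [le_div_iff₀ hr0, one_mul]
        exact_mod_cast hrD.trans hDN
      have h9 : (a i : ℝ) * 1 ≤ a i * (N / r) := mul_le_mul_of_nonneg_left h8 hai0.le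
      rw [hX2]
      have e : 2 * (a i : ℝ) * N / r = a i * (N / r) + a i * (N / r) := by ring
      rw [e]
      linarith
    have h6 : ((J : ℝ) + 2) * ((((2 ^ 2 ^ J) ^ (C * bb) : ℕ) : ℝ) * (((2 ^ 2 ^ J) ^ (C * bb) : ℕ) : ℝ) *
        (17 * (a i : ℝ) ^ 2 * ((Nat.sqrt (a i * (N / r) + (tt r).2.1) : ℝ) + 1))) ≤
        F * (Real.sqrt X2 * (1 / Real.sqrt r) + 1) := by
      have e : ((J : ℝ) + 2) * ((((2 ^ 2 ^ J) ^ (C * bb) : ℕ) : ℝ) * (((2 ^ 2 ^ J) ^ (C * bb) : ℕ) : ℝ) *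
        (17 * (a i : ℝ) ^ 2 * ((Nat.sqrt (a i * (N / r) + (tt r).2.1) : ℝ) + 1))) =
        F * ((Nat.sqrt (a i * (N / r) + (tt r).2.1) : ℝ) + 1) := by rw [hFd]; ring
      rw [e]
      apply mul_le_mul_of_nonneg_left _ hF0
      linarith
    unfold GS
    linarith
  have e2 : ∑ r ∈ (Ioc y D).filter (fun r => r.Prime ∧ χ r = 1), (1 / r : ℝ) ≤ 1 / 8 := by
    refine le_trans ?_ hsum
    apply sum_le_sum_of_subset_of_nonneg
    · intro r hr
      rw [mem_filter, mem_Ioc] at hr ⊢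
      refine ⟨⟨by rw [← hy]; exact hr.1.1, hr.1.2.trans (hDs.trans ?_)⟩, hr.2⟩
      exact Nat.pow_le_pow_right (by omega) (by omega)
    · intro r _ _
      positivity
  have e3 : ∑ r ∈ (Ioc y D).filter (fun r => r.Prime ∧ χ r = 1), (F * (Real.sqrt X2 * (1 / Real.sqrt r) + 1)) ≤
      F * (Real.sqrt X2 * (2 * Real.sqrt D) + D) := by
    calc _ ≤ ∑ r ∈ Icc 1 D, (F * (Real.sqrt X2 * (1 / Real.sqrt r) + 1)) := by
          apply sum_le_sum_of_subset_of_nonneg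
          · intro r hr
            rw [mem_filter, mem_Ioc] at hr
            rw [mem_Icc]
            exact ⟨hr.2.1.one_lt.le, hr.1.2⟩
          · intro r _ _
            positivity
      _ = F * (Real.sqrt X2 * ∑ r ∈ Icc 1 D, 1 / Real.sqrt r + D) := by
          rw [← mul_sum, sum_add_distrib, ← mul_sum, sum_const, Nat.card_Icc, Nat.add_sub_cancel, nsmul_eq_mul, mul_one]
      _ ≤ _ := by
          apply mul_le_mul_of_nonneg_left _ hF0
          apply add_le_add _ le_rfl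
          exact mul_le_mul_of_nonneg_left (sum_inv_sqrt D) (Real.sqrt_nonneg _)
  have e4 : Real.sqrt X2 * (2 * Real.sqrt D) ≤ 2 * (s : ℝ) ^ (12 * u + 2) := by
    have h1 : X2 * D ≤ ((s : ℝ) ^ (12 * u + 2)) ^ 2 := by
      rw [hX2, hNr]
      calc 2 * (a i : ℝ) * (s : ℝ) ^ (16 * u) * D ≤ s * s * (s : ℝ) ^ (16 * u) * (s : ℝ) ^ (8 * u + 1) := by
            gcongr
            linarith
        _ = (s : ℝ) ^ (24 * u + 3) := by
            rw [← sq, ← pow_add, ← pow_add]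
            congr 1
            ring
        _ ≤ (s : ℝ) ^ (24 * u + 4) := pow_le_pow_right₀ hs1' (by omega)
        _ = ((s : ℝ) ^ (12 * u + 2)) ^ 2 := by
            rw [← pow_mul]
            congr 1
            ring
    have h2 : Real.sqrt X2 * Real.sqrt D ≤ (s : ℝ) ^ (12 * u + 2) := by
      rw [← Real.sqrt_mul hX20]
      calc Real.sqrt (X2 * D) ≤ Real.sqrt (((s : ℝ) ^ (12 * u + 2)) ^ 2) := Real.sqrt_le_sqrt h1
        _ = _ := Real.sqrt_sq (by positivity)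
    linarith
  have e50 : ∑ n ∈ GS W ν N P (Rts a b), lam χ (a i * n + b i) ≤ 2 * (GP.card : ℝ) +
      ∑ n ∈ (GS W ν N P (Rts a b)).filter (fun n => ¬ (a i * n + b i).Prime), lam χ (a i * n + b i) := by
    rw [← sum_filter_add_sum_filter_not (GS W ν N P (Rts a b)) (fun n => (a i * n + b i).Prime)]
    apply add_le_add _ le_rfl
    rw [← hGP, mul_comm, ← nsmul_eq_mul]
    apply sum_le_card_nsmul
    intro n hn
    rw [hGP, mem_filter] at hn
    exact lam_prime_le h hn.2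
  have e5 : ∑ n ∈ GS W ν N P (Rts a b), lam χ (a i * n + b i) ≤ 2 * (GP.card : ℝ) +
      (3 * AV * ∑ r ∈ (Ioc y D).filter (fun r => r.Prime ∧ χ r = 1), (1 / r : ℝ) +
      2 * (F * (2 * (s : ℝ) ^ (12 * u + 2) + D)) + 2 ^ u * ((N : ℝ) / y + 2 * D)) := by
    refine e50.trans (add_le_add le_rfl ?_)
    refine hrem.trans ?_
    apply add_le_add _ le_rfl
    refine (sum_le_sum e1).trans ?_
    rw [sum_add_distrib, ← mul_sum, ← mul_sum]
    apply add_le_add le_rfl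
    apply mul_le_mul_of_nonneg_left _ (by norm_num)
    refine e3.trans ?_
    apply mul_le_mul_of_nonneg_left _ hF0
    linarith
  have e6 := fin_ineq_count hAV0 e0 e5 e2
  -- the main term is large
  have hmain : 16 * (s : ℝ) ^ (16 * u - 4) ≤ 2 * AV := by
    have h1 : 4 * W * 2 ^ ZW.card * (16 * Real.log s) ^ (4 * k + 2) ≤ s * c6 := by
      have h2 : 4 * W * 2 ^ ZW.card / c6 * (16 * Real.log s) ^ (4 * k + 2) =
          4 * W * 2 ^ ZW.card * (16 * Real.log s) ^ (4 * k + 2) / c6 := by ring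
      rw [h2, div_le_iff₀ hc6] at ev1
      exact ev1
    have h2 : 1 / (s : ℝ) * (1 / (2 ^ ZW.card * s)) ≤ LP := by
      rw [hLP]
      apply mul_le_mul hLs _ (by positivity) hL0
      refine le_trans ?_ hZc
      apply one_div_le_one_div_of_le (by positivity)
      exact mul_le_mul_of_nonneg_left har (by positivity)
    have hlp : 0 < (16 * Real.log s) ^ (4 * k + 2) := by positivity
    have h3 : 2 * ((N : ℝ) / W) * (1 / (s : ℝ) * (1 / (2 ^ ZW.card * s))) * (c6 / (16 * Real.log s) ^ (4 * k + 2)) ≤ AV := by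
      rw [hAV]
      gcongr
    have h4 : 8 * (s : ℝ) ^ (16 * u - 4) ≤
        2 * ((N : ℝ) / W) * (1 / (s : ℝ) * (1 / (2 ^ ZW.card * s))) * (c6 / (16 * Real.log s) ^ (4 * k + 2)) := by
      have e : 2 * ((N : ℝ) / W) * (1 / (s : ℝ) * (1 / (2 ^ ZW.card * s))) * (c6 / (16 * Real.log s) ^ (4 * k + 2)) =
          2 * N * c6 / (W * 2 ^ ZW.card * (16 * Real.log s) ^ (4 * k + 2) * s ^ 2) := by
        field_simp
      rw [e, le_div_iff₀ (by positivity)]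
      have h5 : (N : ℝ) = (s : ℝ) ^ (16 * u - 4) * s ^ 4 := by
        rw [hNr, ← pow_add]
        congr 1
        omega
      rw [h5]
      have h6 : (0 : ℝ) ≤ (s : ℝ) ^ (16 * u - 4) * s ^ 2 := by positivity
      have h7 := mul_le_mul_of_nonneg_left h1 h6
      have h8 : (s : ℝ) ^ (16 * u - 4) * s ^ 2 * (s * c6) ≤ (s : ℝ) ^ (16 * u - 4) * s ^ 4 * c6 := by
        have h9 : (s : ℝ) ^ 2 * s ≤ s ^ 4 := by
          have : (s : ℝ) ^ 4 = s ^ 2 * s * s := by ring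
          rw [this]
          exact le_mul_of_one_le_right (by positivity) hs1'
        calc (s : ℝ) ^ (16 * u - 4) * s ^ 2 * (s * c6) = (s : ℝ) ^ (16 * u - 4) * (s ^ 2 * s) * c6 := by ring
          _ ≤ _ := by gcongr
      linarith
    linarith
  -- contradiction
  have hDle : (D : ℝ) ≤ (s : ℝ) ^ (12 * u + 2) := hDr.trans (pow_le_pow_right₀ hs1' (by omega))
  have hone : (1 : ℝ) ≤ (s : ℝ) ^ (12 * u + 2) := one_le_pow₀ hs1'
  have g1 : F * ((D : ℝ) + 1) + 2 * (F * (2 * (s : ℝ) ^ (12 * u + 2) + D)) ≤ (s : ℝ) ^ (2 * e + 12 * u + 7) := by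
    calc F * ((D : ℝ) + 1) + 2 * (F * (2 * (s : ℝ) ^ (12 * u + 2) + D)) = F * (3 * D + 1 + 4 * (s : ℝ) ^ (12 * u + 2)) := by ring
      _ ≤ (s : ℝ) ^ (2 * e + 4) * (s * (s : ℝ) ^ (12 * u + 2)) := by
          apply mul_le_mul hFs _ (by positivity) (by positivity)
          have : 17 * (s : ℝ) ^ (12 * u + 2) ≤ s * (s : ℝ) ^ (12 * u + 2) := mul_le_mul_of_nonneg_right hsr (by positivity)
          linarith
      _ = _ := by
          rw [← pow_succ', ← pow_add]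
          congr 1
          ring
  have g2 : (2 : ℝ) ^ u * ((N : ℝ) / y + 2 * D) ≤ 3 * (s : ℝ) ^ (16 * u - 5) := by
    have h1 : (2 : ℝ) ^ u ≤ s := by
      have : 2 ^ u ≤ s := by omega
      exact_mod_cast this
    have h2 : (N : ℝ) / y = (s : ℝ) ^ (16 * u - 16) := by
      rw [hNr, hyr, div_eq_iff (by positivity), ← pow_add]
      congr 1
      omega
    rw [h2]
    have h3 : (s : ℝ) ^ (16 * u - 16) ≤ (s : ℝ) ^ (16 * u - 6) := pow_le_pow_right₀ hs1' (by omega)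
    have h4 : (D : ℝ) ≤ (s : ℝ) ^ (16 * u - 6) := hDr.trans (pow_le_pow_right₀ hs1' (by omega))
    calc (2 : ℝ) ^ u * ((s : ℝ) ^ (16 * u - 16) + 2 * D) ≤ s * (3 * (s : ℝ) ^ (16 * u - 6)) := by
          apply mul_le_mul h1 (by linarith) (by positivity) hs0.le
      _ = 3 * (s : ℝ) ^ (16 * u - 5) := by
          have : (s : ℝ) ^ (16 * u - 5) = (s : ℝ) ^ (16 * u - 6) * s := by
            rw [← pow_succ]
            congr 1
            omega
          rw [this]; ring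
  have g3 : (s : ℝ) ^ (2 * e + 12 * u + 7) ≤ (s : ℝ) ^ (16 * u - 5) := pow_le_pow_right₀ hs1' (by omega)
  have g4 : 17 * (s : ℝ) ^ (16 * u - 5) ≤ (s : ℝ) ^ (16 * u - 4) := by
    have : (s : ℝ) ^ (16 * u - 4) = s * (s : ℝ) ^ (16 * u - 5) := by
      rw [← pow_succ']
      congr 1
      omega
    rw [this]
    exact mul_le_mul_of_nonneg_right hsr (by positivity)
  have g5 : 0 < (s : ℝ) ^ (16 * u - 5) := by positivity
  have g6 : AV / 32 ≤ GP.card := by linarith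
  refine ⟨by linarith, le_trans ?_ g6⟩
  rw [← hN]
  have hNy : N = y ^ u := by
    rw [hN, hy, ← pow_mul]
  obtain ⟨t0, t1⟩ := hTl χ h.abs_le y u N (by omega) (by omega) hNy
  have hyN : y ≤ N := by rw [hNy]; exact Nat.le_self_pow (by omega) y
  have hZy : z0 ≤ y := by omega
  have hZWP : ZW ∪ P = Pz y := by
    rw [hZWd, hPd]
    apply union_sdiff_of_subset
    intro p hp
    rw [mem_Pz] at hp ⊢
    exact ⟨hp.1.trans hZy, hp.2⟩
  have hLV := Pool.Agent.H92.K.LV_eq χ (a := a i) (b := b i) (hab i).1 (Rt := Rts a b) ZW P (Pz y) hdisj hZWP (by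
      intro p hp
      rw [mem_Pz]
      exact ⟨(Nat.le_of_dvd (hab i).1 (Nat.dvd_of_mem_primeFactors hp)).trans ((has i).trans hsy),
        Nat.prime_of_mem_primeFactors hp⟩) (fun p hp => ⟨(hPm p hp).1, (hRtk p hp).2, fun c hc hd => by
      have h1 := Rts_hit (a := a) (b := b) (hPm p hp).1.pos i hd
      rwa [Nat.mod_eq_of_lt hc] at h1⟩)
  have hdn : Pool.Agent.H92.F.dens a b N ≤ ∏ p ∈ P, (1 - ((Rts a b p).card : ℝ) / p) := by
    have h1 := Pool.Agent.H92.F.dens_le a b N ∅ P (empty_subset _) (by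
      intro p hp
      rw [mem_Pz]
      exact ⟨(hPm p hp).2.2.trans hyN, (hPm p hp).1⟩) (disjoint_empty_left _)
    rw [prod_empty, one_mul] at h1
    refine h1.trans (le_of_eq ?_)
    apply prod_congr rfl
    intro p _
    rw [mul_one_div]
    rfl
  have hdn0 : 0 ≤ Pool.Agent.H92.F.dens a b N := by
    unfold Pool.Agent.H92.F.dens
    exact prod_nonneg fun p hp => Pool.Agent.H92.F.fac_nonneg a b (mem_Pz.1 hp).2.pos
  have hAVe : AV = 2 * ((N : ℝ) / W) * (L * ((∏ p ∈ P, (1 - ((Rts a b p).card : ℝ) / p)) * ∏ p ∈ Pz y, (1 - χ p / p))) := by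
    rw [hAV, hLP, hV, ← hLV]
    ring
  obtain ⟨DN, hDN1⟩ : ∃ DN : ℝ, DN = Pool.Agent.H92.F.dens a b N := ⟨_, rfl⟩
  obtain ⟨DP, hDP⟩ : ∃ DP : ℝ, DP = ∏ p ∈ P, (1 - ((Rts a b p).card : ℝ) / p) := ⟨_, rfl⟩
  obtain ⟨EN, hEN⟩ : ∃ EN : ℝ, EN = ∏ p ∈ Pz N, (1 - χ p / p) := ⟨_, rfl⟩
  obtain ⟨EY, hEY⟩ : ∃ EY : ℝ, EY = ∏ p ∈ Pz y, (1 - χ p / p) := ⟨_, rfl⟩
  rw [← hDN1] at hdn hdn0 ⊢
  rw [← hDP] at hdn hAVe
  rw [← hEN] at t1 ⊢
  rw [← hEY] at t0 t1 hAVe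
  rw [hAVe]
  calc 1 / (16 * W * CT * u) * N * DN * (L * EN) ≤ 1 / (16 * W * CT * u) * N * DN * (L * (CT * u * EY)) := by
        apply mul_le_mul_of_nonneg_left _ (by positivity)
        exact mul_le_mul_of_nonneg_left t1 hL0
    _ = N / W / 16 * DN * (L * EY) := by field_simp
    _ ≤ N / W / 16 * DP * (L * EY) := by
        apply mul_le_mul_of_nonneg_right _ (mul_nonneg hL0 t0)
        exact mul_le_mul_of_nonneg_left hdn (by positivity)
    _ = 2 * ((N : ℝ) / W) * (L * (DP * EY)) / 32 := by ring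

end Pool.Agent.H92.G
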