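import Pool.Agent.H92.G.MainU
import Pool.Agent.H92.K.PlusQ
import Pool.Agent.H92.K.MinQ
import Pool.Agent.H92.K.Grow

set_option autoImplicit false

/-! All admissible systems: the number of the `n`. -/

open Finset Filter Topology

namespace Pool.Agent.H92.K

open Pool.Agent.H262R3.Lk Pool.Agent.H262R2.UM Pool.Agent.H262R2.UP Pool.Agent.H92.F Pool.Agent.H92.G

/-- the number of the `n ≤ N` with the property -/
def cnt {k : ℕ} (a b : Fin k → ℕ) (i : Fin k) (R N : ℕ) : ℕ :=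
  #((range (N + 1)).filter (fun n => (a i * n + b i).Prime ∧ ∀ j, (a j * n + b j).primeFactorsList.length ≤ R))

theorem card_le_cnt {k : ℕ} {a b : Fin k → ℕ} {i : Fin k} {R N : ℕ} {G : Finset ℕ}
    (h : ∀ n ∈ G, n ≤ N ∧ (a i * n + b i).Prime ∧ ∀ j, (a j * n + b j).primeFactorsList.length ≤ R) :
    (G.card : ℝ) ≤ cnt a b i R N := by
  unfold cnt
  refine Nat.cast_le.2 (card_le_card ?_)
  intro n hn
  rw [mem_filter, mem_range]
  obtain ⟨h1, h2, h3⟩ := h n hn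
  exact ⟨by omega, h2, h3⟩

theorem cnt_mono {k : ℕ} (a b : Fin k → ℕ) (i : Fin k) {R R' N N' : ℕ} (hR : R ≤ R') (hN : N ≤ N') :
    cnt a b i R N ≤ cnt a b i R' N' := by
  unfold cnt
  apply card_le_card
  intro n hn
  rw [mem_filter, mem_range] at hn ⊢
  exact ⟨by omega, hn.2.1, fun j => (hn.2.2 j).trans hR⟩

/-- the factor of the exceptional case -/
noncomputable def EF {f : ℕ} [NeZero f] (ψ : DirichletCharacter ℂ f) (N : ℕ) : ℝ :=
  ‖DirichletCharacter.LFunction ψ 1‖ * ∏ p ∈ Pz N, (1 - (ψ (p : ZMod f)).re / p)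

/-- exceptional moduli are large -/
theorem exc_large (B : ℕ) : ∃ M0 : ℕ, ∀ M : ℕ, M0 ≤ M → ∀ δ : ℝ, δ ≤ 1 / 2 → ∀ f : ℕ, LOW.Exc (M ^ 32) δ f →
    (Real.log M) ^ B < f := by
  obtain ⟨z0, hz0⟩ := h_swq B
  refine ⟨z0 + 3, fun M hM δ hδ f hf => ?_⟩
  obtain ⟨hf1, hfz, ψ, hp, hs, σ, hσ, hσL, hb⟩ := hf
  have hM3 : 3 ≤ M := by omega
  have hMr : (3 : ℝ) ≤ M := by exact_mod_cast hM3
  have hM0 : (0 : ℝ) < M := by linarith
  have hL1 : 1 ≤ Real.log M := by
    rw [Real.le_log_iff_exp_le hM0]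
    have := Real.exp_one_lt_d9
    linarith
  have hlz : Real.log ((M ^ 32 : ℕ) : ℝ) = 32 * Real.log M := by
    push_cast
    rw [Real.log_pow]; norm_num
  have hσ1 : σ ≤ 1 := by
    by_contra hcon
    push Not at hcon
    rw [hlz] at hσL
    have : 1 * 32 ≤ σ * (32 * Real.log M) := by
      have h1 : 1 * (32 * Real.log M) ≤ σ * (32 * Real.log M) := mul_le_mul_of_nonneg_right hcon.le (by linarith)
      linarith
    linarith
  by_contra hcon
  push Not at hcon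
  have h1 : (f : ℝ) ≤ Real.log ((M ^ 32 : ℕ) : ℝ) ^ B := by
    refine hcon.trans ?_
    apply pow_le_pow_left₀ (by linarith)
    rw [hlz]
    linarith
  have h2 : z0 ≤ M ^ 32 := by
    calc z0 ≤ M := by omega
      _ ≤ M ^ 32 := Nat.le_self_pow (by norm_num) M
  have h3 := hz0 (M ^ 32) h2 f hf1 h1 ψ hp σ hσ hσ1
  linarith

set_option maxHeartbeats 4000000 in
theorem mainV (k : ℕ) (ε : ℝ) (hε : 0 < ε) : ∃ A R : ℕ, ∃ c : ℝ, 0 < c ∧ ∀ B : ℕ, ∃ M0 : ℕ, ∀ M : ℕ, M0 ≤ M →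
    ∃ (f : ℕ) (_ : NeZero f) (ψ : DirichletCharacter ℂ f), (Real.log M) ^ B < f ∧ ψ ^ 2 = 1 ∧ ψ ≠ 1 ∧
    ∀ a b : Fin k → ℕ, Adm a b → (∀ j, 0 < a j ∧ b j ≤ a j) → (∀ j, 1 ≤ b j) → Function.Injective (fun j => (a j, b j)) →
    (∀ j, a j ≤ M) → ∀ i, ∃ N : ℕ, M ≤ N ∧ N ≤ 8 * M ^ A ∧ (N : ℝ) ^ (1 - ε) ≤ cnt a b i R N ∧
      (¬ (f ∣ a i ∧ ψ (b i : ZMod f) = 1) → c * N * dens a b N ≤ cnt a b i R N) ∧
      (f ∣ a i → ψ (b i : ZMod f) = 1 → c * N * dens a b N * EF ψ N ≤ cnt a b i R N) := by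
  classical
  obtain ⟨E, hE⟩ : ∃ E : ℕ, E = ⌈1 / ε⌉₊ := ⟨_, rfl⟩
  have hEε : 1 ≤ ε * E := by
    have h1 : 1 / ε ≤ (⌈1 / ε⌉₊ : ℝ) := Nat.le_ceil _
    rw [← hE, div_le_iff₀ hε] at h1
    linarith
  obtain ⟨u1, s1, c3, hu1, hEu, hc3, hplus⟩ := plus_count k E
  obtain ⟨u2, s2, ϑ2, c2, hu2, _, hϑ2, hc2, hminus⟩ := minus_count k 0
  obtain ⟨G, δm, hG, hδm, hδm1, hlow⟩ := lowX
  obtain ⟨cL, hcL, hLlow⟩ := L_low
  obtain ⟨V, hV⟩ : ∃ V : ℕ, V = 16 * (u1 + 1) + 50 * u2 := ⟨_, rfl⟩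
  have hV16 : 16 ≤ V := by omega
  obtain ⟨ϑ, hϑ⟩ : ∃ ϑ : ℝ, ϑ = min (1 / 8) ϑ2 := ⟨_, rfl⟩
  have hϑ0 : 0 < ϑ := by rw [hϑ]; exact lt_min (by norm_num) hϑ2
  have hϑa : ϑ ≤ 1 / 8 := by rw [hϑ]; exact min_le_left _ _
  have hϑb : ϑ ≤ ϑ2 := by rw [hϑ]; exact min_le_right _ _
  obtain ⟨J, hJ⟩ := exists_nat_gt (G / ϑ)
  rw [div_lt_iff₀ hϑ0] at hJ
  have hVr : (0 : ℝ) < (V : ℝ) ^ J := by
    have : (0 : ℝ) < V := by
      have : 0 < V := by omega
      exact_mod_cast this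
    positivity
  obtain ⟨δ, hδ⟩ : ∃ δ : ℝ, δ = min δm (1 / (V : ℝ) ^ J) := ⟨_, rfl⟩
  have hδ0 : 0 < δ := by rw [hδ]; exact lt_min hδm (by positivity)
  have hδa : δ ≤ δm := by rw [hδ]; exact min_le_left _ _
  have hδb : δ * (V : ℝ) ^ J ≤ 1 := by
    have h1 : δ ≤ 1 / (V : ℝ) ^ J := by rw [hδ]; exact min_le_right _ _
    rw [le_div_iff₀ hVr] at h1
    exact h1
  obtain ⟨c1, hc1, hdich⟩ := hlow δ hδ0 hδa
  obtain ⟨A, R, c, hc, M0, hpipe⟩ := pipeX k c1 δ hc1 hδ0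
  obtain ⟨cd, hcd, hdens⟩ := dens_low k
  obtain ⟨cc, hcc⟩ : ∃ cc : ℝ, cc = min c (min c2 c3) := ⟨_, rfl⟩
  have hcc0 : 0 < cc := by rw [hcc]; exact lt_min hc (lt_min hc2 hc3)
  have hcca : cc ≤ c := by rw [hcc]; exact min_le_left _ _
  have hccb : cc ≤ c2 := by rw [hcc]; exact (min_le_right _ _).trans (min_le_left _ _)
  have hccd : cc ≤ c3 := by rw [hcc]; exact (min_le_right _ _).trans (min_le_right _ _)
  obtain ⟨M3, hM3⟩ := growth k (cc * cd) ε (by positivity) hε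
  refine ⟨A + 2 * V ^ J * V, R + V + 2, cc, hcc0, fun B => ?_⟩
  obtain ⟨M4, hM4⟩ := exc_large B
  refine ⟨M0 + s1 + s2 + 17 + ⌈1 / cL⌉₊ + M3 + M4, ?_⟩
  intro M hM
  have hM17 : 17 ≤ M := by omega
  have hMr : (17 : ℝ) ≤ M := by exact_mod_cast hM17
  have hM0 : (0 : ℝ) < M := by linarith
  obtain ⟨z, hz⟩ : ∃ z : ℕ, z = M ^ 32 := ⟨_, rfl⟩
  have hz32 : 32 ≤ z := by
    rw [hz]
    calc 32 ≤ 17 ^ 32 := by norm_num
      _ ≤ M ^ 32 := Nat.pow_le_pow_left hM17 32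
  obtain ⟨huniq, hgood, hexc⟩ := hdich z hz32
  -- the first bound follows from the second
  have hfirst : ∀ a b : Fin k → ℕ, Adm a b → ∀ (i : Fin k) (N Rf : ℕ), M ≤ N → cc * N * dens a b N ≤ cnt a b i Rf N →
      (N : ℝ) ^ (1 - ε) ≤ cnt a b i Rf N := by
    intro a b hadm i N Rf hMN h1
    have hNr : (17 : ℝ) ≤ N := by
      have : 17 ≤ N := by omega
      exact_mod_cast this
    have hd := hdens N (by omega) a b hadm
    refine (hM3 N (by omega)).trans (le_trans ?_ h1)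
    have hlogN : 0 < Real.log N := Real.log_pos (by linarith)
    calc cc * cd * N * (1 / (Real.log N) ^ k) = cc * N * (cd / (Real.log N) ^ k) := by ring
      _ ≤ _ := mul_le_mul_of_nonneg_left hd (by positivity)
  -- the case without exceptional modulus
  have hno : ∀ a b : Fin k → ℕ, Adm a b → (∀ j, 0 < a j ∧ b j ≤ a j) → (∀ j, 1 ≤ b j) →
      Function.Injective (fun j => (a j, b j)) → (∀ j, a j ≤ M) → ∀ i, (∀ f, LOW.Exc z δ f → ¬ f ∣ a i) →
      ∃ N : ℕ, M ≤ N ∧ N ≤ 8 * M ^ (A + 2 * V ^ J * V) ∧ (N : ℝ) ^ (1 - ε) ≤ cnt a b i (R + V + 2) N ∧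
        cc * N * dens a b N ≤ cnt a b i (R + V + 2) N := by
    intro a b hadm hab hb1 hinj haM i hex
    obtain ⟨T, hT1, hT⟩ : ∃ T : Finset ℕ, #T ≤ 1 ∧ ∀ f, LOW.Exc z δ f → ¬ f ∣ a i * WT M T := by
      by_cases hE : ∃ f, LOW.Exc z δ f
      · obtain ⟨f, hf⟩ := hE
        obtain ⟨T, hT1, hT2⟩ := choose_T (M := M) (by have := hf.1; omega) (hab i).1 (hex f hf)
        refine ⟨T, hT1, fun g hg => ?_⟩
        rw [huniq g f hg hf]
        exact hT2
      · exact ⟨∅, by simp, fun f hf => absurd ⟨f, hf⟩ hE⟩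
    have hWpos := WT_pos M T
    have hWM := WT_le M (by omega) T
    have hq1 : 1 ≤ a i * WT M T := Nat.mul_pos (hab i).1 hWpos
    have hq16 : (a i * WT M T) ^ 16 ≤ z := by
      calc (a i * WT M T) ^ 16 ≤ (M * M) ^ 16 := Nat.pow_le_pow_left (Nat.mul_le_mul (haM i) hWM) 16
        _ = z := by rw [hz]; ring
    obtain ⟨N, hN1, hN2, hN3⟩ := hpipe M (by omega) a b hadm hab hb1 hinj haM i T hT1 (by
      intro χ hχ σ hσ hσL
      rw [← hz] at hσL ⊢
      exact hgood _ hq1 hq16 hT χ hχ σ hσ hσL)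
    have hNr : (17 : ℝ) ≤ N := by
      have : 17 ≤ N := by omega
      exact_mod_cast this
    have hlogN : 0 < Real.log N := Real.log_pos (by linarith)
    have hd0 : 0 ≤ dens a b N := le_trans (by positivity) (hdens N (by omega) a b hadm)
    have h3 : cc * N * dens a b N ≤ cnt a b i (R + V + 2) N := by
      calc cc * N * dens a b N ≤ c * N * dens a b N := by gcongr
        _ ≤ (cnt a b i R N : ℝ) := hN3
        _ ≤ _ := by exact_mod_cast cnt_mono a b i (by omega) le_rfl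
    refine ⟨N, hN1, ?_, hfirst a b hadm i N _ hN1 h3, h3⟩
    have h1 : N ≤ 8 * M ^ A := by exact_mod_cast hN2
    have h2 : M ^ A ≤ M ^ (A + 2 * V ^ J * V) := Nat.pow_le_pow_right (by omega) (by omega)
    omega
  by_cases hExc : ∃ f, LOW.Exc z δ f
  · obtain ⟨f, hf⟩ := hExc
    have hf1 : 1 < f := hf.1
    have : NeZero f := ⟨by omega⟩
    obtain ⟨ψ, hψp, hψ2, hψs⟩ := hexc f hf
    have hψ1 : ψ ≠ 1 := LOW.primitive_ne_one hf1 hψp
    obtain ⟨χ, hχ, hψχ, hTe⟩ := chr_of ψ hψ1 hψ2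
    refine ⟨f, this, ψ, hM4 M (by omega) δ (hδa.trans hδm1) f (by rw [← hz]; exact hf), hψ2, hψ1, ?_⟩
    intro a b hadm hab hb1 hinj haM i
    have hcop : ∀ j, (b j).Coprime (a j) := fun j => adm_coprime hadm j
    by_cases hfa : f ∣ a i
    swap
    · obtain ⟨N, g1, g2, g3, g4⟩ := hno a b hadm hab hb1 hinj haM i (fun g hg => by
        rw [huniq g f hg hf]
        exact hfa)
      exact ⟨N, g1, g2, g3, fun _ => g4, fun h5 => absurd h5 hfa⟩
    have hχone : ∀ n : ℕ, χ n = 1 → ψ (n : ZMod f) = 1 := by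
      intro n hn
      rw [hψχ, hn, Complex.ofReal_one]
    obtain ⟨g, hg⟩ : ∃ g : ℕ → ℝ, g = fun r => if r.Prime ∧ χ r = 1 then 1 / (r : ℝ) else 0 := ⟨_, rfl⟩
    have hg0 : ∀ r, 0 ≤ g r := by
      intro r
      rw [hg]
      simp only []
      split_ifs
      · positivity
      · exact le_rfl
    have hsum : ∑ r ∈ Ioc (M ^ 32) (M ^ (32 * V ^ J)), g r ≤ G := by
      rw [hg, ← sum_filter]
      apply hψs
      intro p hp
      rw [mem_filter, mem_Ioc] at hp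
      obtain ⟨⟨h1, h2⟩, h3, h4⟩ := hp
      refine ⟨h3, by rw [hz]; exact h1, ?_, hχone p h4⟩
      have hp0 : (0 : ℝ) < p := by exact_mod_cast h3.pos
      have h5 : Real.log p ≤ Real.log ((M ^ (32 * V ^ J) : ℕ) : ℝ) := Real.log_le_log hp0 (by exact_mod_cast h2)
      rw [Nat.cast_pow, Real.log_pow] at h5
      have h6 : Real.log z = 32 * Real.log M := by
        rw [hz, Nat.cast_pow, Real.log_pow]; norm_num
      have hlogM : 0 ≤ Real.log M := Real.log_nonneg (by linarith)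
      rw [h6]
      calc δ * Real.log p ≤ δ * (((32 * V ^ J : ℕ) : ℝ) * Real.log M) := mul_le_mul_of_nonneg_left h5 hδ0.le
        _ = 32 * (δ * (V : ℝ) ^ J) * Real.log M := by push_cast; ring
        _ ≤ 32 * 1 * Real.log M := by gcongr
        _ = 32 * Real.log M := by ring
    obtain ⟨t, htJ, ht⟩ := pigeon g hg0 M V J (by omega) hV16 G ϑ hsum hJ
    obtain ⟨s, hs⟩ : ∃ s : ℕ, s = M ^ (2 * V ^ t) := ⟨_, rfl⟩
    rw [← hs] at ht
    have hVt : 1 ≤ V ^ t := Nat.one_le_pow _ _ (by omega)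
    have hM2s : M ^ 2 ≤ s := by rw [hs]; exact Nat.pow_le_pow_right (by omega) (by omega)
    have hMs : M ≤ s := (Nat.le_self_pow (by norm_num) M).trans hM2s
    have has : ∀ j, a j ≤ s := fun j => (haM j).trans hMs
    have hss : s ^ V ≤ M ^ (A + 2 * V ^ J * V) := by
      rw [hs, ← pow_mul]
      apply Nat.pow_le_pow_right (by omega)
      have h1 : V ^ t ≤ V ^ J := Nat.pow_le_pow_right (by omega) htJ.le
      have h2 : 2 * V ^ t * V ≤ 2 * V ^ J * V := Nat.mul_le_mul_right _ (Nat.mul_le_mul_left _ h1)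
      omega
    have hfilt : ∀ w : ℕ, w ≤ V → ∑ r ∈ (Ioc (s ^ 16) (s ^ w)).filter (fun r => r.Prime ∧ χ r = 1), 1 / (r : ℝ) ≤ ϑ := by
      intro w hw
      refine le_trans ?_ ht
      rw [sum_filter, hg]
      apply sum_le_sum_of_subset_of_nonneg
      · intro r hr
        rw [mem_Ioc] at hr ⊢
        exact ⟨hr.1, hr.2.trans (Nat.pow_le_pow_right (by omega) hw)⟩
      · intro r _ _
        split_ifs
        · positivity
        · exact le_rfl
    have hbf : (b i).Coprime f := Nat.Coprime.coprime_dvd_right hfa (hcop i)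
    have hs17 : 17 ≤ s := by omega
    have hsr : (17 : ℝ) ≤ s := by exact_mod_cast hs17
    rcases hχ.val (b i) hbf with hχb | hχb
    · -- `χ (b i) = 1`
      have hLs : 1 / (s : ℝ) ≤ ‖ψ.LFunction 1‖ := by
        refine le_trans ?_ (hLlow f ψ hψp hψ2 hψ1)
        have hs0 : (0 : ℝ) < s := by linarith
        have hf0 : (0 : ℝ) < f := by
          have : 0 < f := by omega
          exact_mod_cast this
        rw [div_le_div_iff₀ hs0 hf0, one_mul]
        have h1 : (f : ℝ) ≤ M := by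
          have h2 : f ≤ a i := Nat.le_of_dvd (hab i).1 hfa
          exact_mod_cast h2.trans (haM i)
        have h2 : 1 / cL ≤ M := by
          have h3 : (1 / cL : ℝ) ≤ ⌈1 / cL⌉₊ := Nat.le_ceil _
          have h4 : ((⌈1 / cL⌉₊ : ℕ) : ℝ) ≤ M := by
            have : ⌈1 / cL⌉₊ ≤ M := by omega
            exact_mod_cast this
          linarith
        have h3 : (M : ℝ) ^ 2 ≤ s := by exact_mod_cast hM2s
        rw [div_le_iff₀ hcL] at h2
        calc (f : ℝ) ≤ 1 * M := by rw [one_mul]; exact h1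
          _ ≤ (M * cL) * M := mul_le_mul_of_nonneg_right h2 hM0.le
          _ = cL * (M : ℝ) ^ 2 := by ring
          _ ≤ cL * s := mul_le_mul_of_nonneg_left h3 hcL.le
      obtain ⟨GP, hGP1, hGP3, hGP2⟩ := hplus s (by omega) f χ _ hχ hTe hLs a b hadm hab hb1 has i hfa hχb
        ((hfilt (16 * (u1 + 1)) (by omega)).trans hϑa)
      have hGPc : (GP.card : ℝ) ≤ cnt a b i (R + V + 2) (s ^ (16 * u1)) := by
        apply card_le_cnt
        intro n hn
        obtain ⟨hn1, hn2, hn3, hn4⟩ := hGP2 n hn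
        refine ⟨hn2, hn3, fun j => ?_⟩
        have h1 := omega_le (by omega) hab hb1 has hn2 (fun j p hp hpd =>
          lt_of_le_of_lt (Nat.le_self_pow (by norm_num) s) (hn4 j p hp hpd)) j
        omega
      refine ⟨s ^ (16 * u1), ?_, ?_, ?_, fun hne => absurd ⟨hfa, hχone _ hχb⟩ hne, fun _ _ => ?_⟩
      · exact hMs.trans (Nat.le_self_pow (by omega) s)
      · have h1 : s ^ (16 * u1) ≤ s ^ V := Nat.pow_le_pow_right (by omega) (by omega)
        omega
      · refine le_trans ?_ (hGP1.trans hGPc)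
        push_cast
        rw [← Real.rpow_natCast, ← Real.rpow_natCast, ← Real.rpow_mul (by linarith)]
        apply Real.rpow_le_rpow_of_exponent_le (by linarith)
        have h1 : 5 ≤ 16 * u1 := by omega
        rw [Nat.cast_sub h1]
        push_cast
        have h2 : (E : ℝ) ≤ u1 := by exact_mod_cast hEu
        have h3 : ε * E ≤ ε * u1 := mul_le_mul_of_nonneg_left h2 hε.le
        linarith
      · refine le_trans ?_ (hGP3.trans hGPc)
        have hMN : M ≤ s ^ (16 * u1) := hMs.trans (Nat.le_self_pow (by omega) s)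
        have hNr : (17 : ℝ) ≤ ((s ^ (16 * u1) : ℕ) : ℝ) := by
          have : 17 ≤ s ^ (16 * u1) := by omega
          exact_mod_cast this
        have hlogN : 0 < Real.log ((s ^ (16 * u1) : ℕ) : ℝ) := Real.log_pos (by linarith)
        have hd0 : 0 ≤ dens a b (s ^ (16 * u1)) := le_trans (by positivity) (hdens (s ^ (16 * u1)) (by omega) a b hadm)
        have hEF : EF ψ (s ^ (16 * u1)) = ‖DirichletCharacter.LFunction ψ 1‖ * ∏ p ∈ Pz (s ^ (16 * u1)), (1 - χ p / p) := by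
          unfold EF
          congr 1
          apply prod_congr rfl
          intro p _
          rw [hψχ, Complex.ofReal_re]
        have hEF0 : 0 ≤ EF ψ (s ^ (16 * u1)) := by
          rw [hEF]
          apply mul_nonneg (norm_nonneg _)
          apply prod_nonneg
          intro p hp
          have hp2 : (2 : ℝ) ≤ p := by exact_mod_cast (mem_Pz.1 hp).2.two_le
          have h1 := (abs_le.1 (hχ.abs_le p)).2
          rw [sub_nonneg, div_le_one (by linarith)]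
          linarith
        rw [← hEF]
        apply mul_le_mul_of_nonneg_right _ hEF0
        gcongr
    · -- `χ (b i) = -1`
      obtain ⟨GP, hGP1, hGP2⟩ := hminus s (by omega) f χ hχ a b hadm hab hb1 has i hfa hχb
        ((hfilt (50 * u2) (by omega)).trans hϑb)
      have hMN : M ≤ s ^ (50 * u2) := hMs.trans (Nat.le_self_pow (by omega) s)
      have h3 : cc * ((s ^ (50 * u2) : ℕ) : ℝ) * dens a b (s ^ (50 * u2)) ≤ cnt a b i (R + V + 2) (s ^ (50 * u2)) := by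
        have hNr : (17 : ℝ) ≤ ((s ^ (50 * u2) : ℕ) : ℝ) := by
          have : 17 ≤ s ^ (50 * u2) := by omega
          exact_mod_cast this
        have hlogN : 0 < Real.log ((s ^ (50 * u2) : ℕ) : ℝ) := Real.log_pos (by linarith)
        have hd0 : 0 ≤ dens a b (s ^ (50 * u2)) := le_trans (by positivity) (hdens (s ^ (50 * u2)) (by omega) a b hadm)
        calc cc * ((s ^ (50 * u2) : ℕ) : ℝ) * dens a b (s ^ (50 * u2)) ≤
            c2 * ((s ^ (50 * u2) : ℕ) : ℝ) * dens a b (s ^ (50 * u2)) := by gcongr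
          _ ≤ GP.card := hGP1
          _ ≤ _ := card_le_cnt (fun n hn => by
            obtain ⟨hn1, hn2, hn3, hn4⟩ := hGP2 n hn
            refine ⟨hn2, hn3, fun j => ?_⟩
            have h1 := omega_le (by omega) hab hb1 has hn2 hn4 j
            omega)
      refine ⟨s ^ (50 * u2), hMN, ?_, hfirst a b hadm i _ _ hMN h3, fun _ => h3, fun _ h5 => ?_⟩
      swap
      · rw [hψχ, hχb] at h5
        norm_num at h5
      have h1 : s ^ (50 * u2) ≤ s ^ V := Nat.pow_le_pow_right (by omega) (by omega)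
      omega
  · -- no exceptional modulus
    obtain ⟨L, hL⟩ : ∃ L : ℕ, L = M + 1 + ⌈(Real.log M) ^ B⌉₊ := ⟨_, rfl⟩
    obtain ⟨ψ, hψ2, hψ1⟩ := real_char L (by omega)
    refine ⟨4 * L, ⟨by omega⟩, ψ, ?_, hψ2, hψ1, ?_⟩
    · have h1 := Nat.le_ceil ((Real.log M) ^ B)
      have h2 : ((⌈(Real.log M) ^ B⌉₊ : ℕ) : ℝ) + 1 ≤ ((4 * L : ℕ) : ℝ) := by
        have : ⌈(Real.log M) ^ B⌉₊ + 1 ≤ 4 * L := by omega
        exact_mod_cast this
      linarith
    · intro a b hadm hab hb1 hinj haM i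
      obtain ⟨N, g1, g2, g3, g4⟩ := hno a b hadm hab hb1 hinj haM i (fun g hg => absurd ⟨g, hg⟩ hExc)
      refine ⟨N, g1, g2, g3, fun _ => g4, fun h5 => ?_⟩
      have h6 := Nat.le_of_dvd (hab i).1 h5
      have h7 := haM i
      omega

end Pool.Agent.H92.K
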